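import Pool.Agent.P.MP_9a7e1f_lc.Main
import Pool.Agent.P.MP_9a7e1f_lc.Seal
import Pool.Agent.P.MP_9a7e1f_lc.LMod
import Pool.Agent.P.MP_9a7e1f_lc.Hull
import Pool.Agent.P.MP_9a7e1f_lc.Hull2
import Pool.Agent.P.MP_9a7e1f_lc.Calc
import Pool.Agent.P.MP_9a7e1f_lc.Low
import Pool.Agent.P.MP_9a7e1f_lc.Truth
import Pool.Agent.P.MP_9a7e1f_lc.Upper
import Pool.Agent.P.MP_9a7e1f_lc.Sum
import Pool.Agent.P.MP_9a7e1f_lc.Gap
import Pool.Agent.P.MP_9a7e1f_lc.Prod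
import Pool.Agent.P.MP_9a7e1f_lc.Pig
import Pool.Agent.P.MP_9a7e1f_lc.Fus
import Pool.Agent.P.MP_9a7e1f_lc.SeqA
import Pool.Agent.P.MP_9a7e1f_lc.SeqB
import Pool.Agent.P.MP_9a7e1f_lc.Copy
import Pool.Agent.P.MP_9a7e1f_lc.Code
import Pool.Agent.P.MP_9a7e1f_lc.Uniq

/-! For every `n ≥ 2` some transitive model of ZFC has `δ¹ₘ = ω_n` for all `m ≥ 3`. -/

namespace Pool.Agent.Results.MP_9a7e1f_lc.Consistent

open Pool.Agent.P.MP_3ab3de_lc Pool.Agent.P.MP_9a7e1f_lc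

theorem result : ∀ n : ℕ, 2 ≤ n → ∃ N : Set ZFSet.{0}, TModel N ∧
    ∃ d : ZFSet.{0}, Aleph N n d ∧ ∀ m : ℕ, 3 ≤ m → ProjOrd N m d :=
  main lmod (lk hull) (cnt (lk hull)) (low calc') card (upper nice (truth nice) ef)
    (pig (typ sum' (gap sum')) prod') (seqA (lk hull) fus) seqB
    (sealT (lk hull) (h1 hull (lk hull)) copy) real' (code' real') (uniq real')

end Pool.Agent.Results.MP_9a7e1f_lc.Consistent
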